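import Pool.Agent.H13.EDM.Targets

/-!
# Row IFD: independence and degree
-/

set_option autoImplicit false

open Pool.Agent.H13.EDM
open Pool.Agent.H8.TD (lc dg Wsp)

namespace Pool.Agent.H94.EDM

/-- finitely generated and algebraic extensions are finite -/
theorem ifd_fin {F C : Type} [Field F] [Field C] [Algebra F C] (hA : Algebra.IsAlgebraic F C)
    (S : Finset C) (hS : ∀ z : C, z ∈ IntermediateField.adjoin F (S : Set C)) :
    0 < Module.finrank F C := by
  have h1 : Finite (S : Set C) := S.finite_toSet
  have h4 : FiniteDimensional F (IntermediateField.adjoin F (S : Set C)) :=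
    IntermediateField.finiteDimensional_adjoin
      (fun y _ => (hA.isAlgebraic y).isIntegral)
  have h5 : FiniteDimensional F C :=
    Module.Finite.of_surjective (IntermediateField.adjoin F (S : Set C)).val.toLinearMap
      (fun z => ⟨⟨z, hS z⟩, rfl⟩)
  exact Module.finrank_pos

/-- elements generated over a subfield -/
theorem ifd_mem {κ C : Type} [Field κ] [Field C] [Algebra κ C] (F : IntermediateField κ C)
    (S : Set C) (hS : IntermediateField.adjoin κ S = ⊤) (z : C) :
    z ∈ IntermediateField.adjoin F S := by
  have h2 : z ∈ IntermediateField.adjoin κ S := by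
    rw [hS]
    exact IntermediateField.mem_top
  have h3 : IntermediateField.adjoin κ S ≤
      (IntermediateField.adjoin F S).restrictScalars κ := by
    rw [IntermediateField.adjoin_le_iff]
    intro u hu
    have h4 : u ∈ IntermediateField.adjoin F S := IntermediateField.subset_adjoin F S hu
    exact h4
  exact h3 h2

theorem ifd_alg {κ C : Type} [Field κ] [Field C] [Algebra κ C] (F : IntermediateField κ C)
    (h0 : 0 < Module.finrank F C) : Algebra.IsAlgebraic F C := by
  have h1 : FiniteDimensional F C := FiniteDimensional.of_finrank_pos h0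
  exact Algebra.IsAlgebraic.of_finite F C

theorem pf_IFD : T_IFD := by
  intro n κ C _ _ _ x htr hfg
  constructor
  · intro h
    have h1 := ifd_alg (IntermediateField.adjoin κ (Set.range x)) h
    have h3 : Algebra.IsAlgebraic (Algebra.adjoin κ (Set.range x)) C :=
      IntermediateField.isAlgebraic_adjoin_iff_top.1 h1
    exact (Algebra.IsAlgebraic.isTranscendenceBasis_of_le_trdeg_of_finite κ x
      (by rw [htr, Cardinal.mk_fin])).1
  · intro hx
    have hb : IsTranscendenceBasis κ x :=
      hx.isTranscendenceBasis_of_trdeg_le_of_finite (by rw [htr, Cardinal.mk_fin])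
    obtain ⟨S, hS⟩ := hfg
    exact ifd_fin hb.isAlgebraic_field S (ifd_mem _ _ hS)

end Pool.Agent.H94.EDM
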