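import Pool.Agent.H13.EDM.Targets

/-!
# Row TRD: the transcendence degree over a field generated by independent elements
-/

set_option autoImplicit false

open Pool.Agent.H13.EDM

namespace Pool.Agent.H94.EDM

open scoped IntermediateField.algebraAdjoinAdjoin in
/-- the transcendence degree of a field generated by a set -/
theorem trd_trdeg_adjoin {F E : Type} [Field F] [Field E] [Algebra F E] (s : Set E) :
    Algebra.trdeg F (IntermediateField.adjoin F s) = Algebra.trdeg F (Algebra.adjoin F s) := by
  rw [← trdeg_add_eq F (Algebra.adjoin F s) (A := IntermediateField.adjoin F s),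
        (trdeg_eq_zero_iff (R := Algebra.adjoin F s)
          (A := IntermediateField.adjoin F s)).2 inferInstance, add_zero]

/-- the transcendence degree of a field generated by independent elements -/
theorem trd_indep {κ C : Type} [Field κ] [Field C] [Algebra κ C] {p : ℕ} {x : Fin p → C}
    (hx : AlgebraicIndependent κ x) :
    Algebra.trdeg κ (IntermediateField.adjoin κ (Set.range x)) = (p : ℕ) := by
  rw [trd_trdeg_adjoin, ← (hx.aevalEquiv).trdeg_eq, MvPolynomial.trdeg_of_isDomain,
    Cardinal.mk_fin]
  simp

theorem pf_TRD : T_TRD := by
  intro p e κ C _ _ _ x hx htr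
  have h1 : Algebra.trdeg κ (IntermediateField.adjoin κ (Set.range x)) +
      Algebra.trdeg (IntermediateField.adjoin κ (Set.range x)) C = Algebra.trdeg κ C :=
    trdeg_add_eq κ (IntermediateField.adjoin κ (Set.range x)) (A := C)
  rw [trd_indep hx, htr, Nat.cast_add] at h1
  exact Cardinal.eq_of_add_eq_add_left h1 Cardinal.natCast_lt_aleph0

end Pool.Agent.H94.EDM
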